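import Pool.Agent.H777R4.DM.Stmts

set_option autoImplicit false

/-! Task TwoA of project H777-DSH (helper610). -/

namespace H777DSH.H610

open Pool.Agent.H777R4.DM

attribute [local instance 100] LieRing.ofAssociativeRing

/-- the list of shuffles of two words -/
def shl : List ℕ → List ℕ → List (List ℕ)
  | [], w => [w]
  | c :: v, [] => [c :: v]
  | c :: v, b :: w => (shl v (b :: w)).map (fun t => c :: t) ++ (shl (c :: v) w).map (fun t => b :: t)
termination_by v w => v.length + w.length

theorem shl_nil (w : List ℕ) : shl [] w = [w] := by rw [shl]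

theorem shl_cons_nil (c : ℕ) (v : List ℕ) : shl (c :: v) [] = [c :: v] := by rw [shl]

theorem shl_cons_cons (c : ℕ) (v : List ℕ) (b : ℕ) (w : List ℕ) :
    shl (c :: v) (b :: w) =
      (shl v (b :: w)).map (fun t => c :: t) ++ (shl (c :: v) w).map (fun t => b :: t) := by
  rw [shl]

theorem inl_letter (c : ℕ) :
    inl (wd [c]) = MonoidAlgebra.single ((FreeMonoid.ofList [c], 1) : FreeMonoid ℕ × FreeMonoid ℕ)
      (1 : ℚ) := by
  unfold inl wd
  simp [MonoidAlgebra.mapDomainAlgHom, MonoidAlgebra.of, MonoidAlgebra.mapDomain_single]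

theorem inr_letter (c : ℕ) :
    inr (wd [c]) = MonoidAlgebra.single ((1, FreeMonoid.ofList [c]) : FreeMonoid ℕ × FreeMonoid ℕ)
      (1 : ℚ) := by
  unfold inr wd
  simp [MonoidAlgebra.mapDomainAlgHom, MonoidAlgebra.of, MonoidAlgebra.mapDomain_single]

theorem co_inl_nil (c : ℕ) (Q : AYY) (w : FreeMonoid ℕ) :
    (inl (wd [c]) * Q).coeff (FreeMonoid.ofList [], w) = 0 := by
  rw [inl_letter]
  apply MonoidAlgebra.coeff_single_mul_of_forall_mul_ne
  rintro ⟨p, q⟩ h
  have h1 := congrArg Prod.fst h
  have h2 := congrArg (fun z : FreeMonoid ℕ => (FreeMonoid.toList z).length) h1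
  simp at h2

theorem co_inr_nil (c : ℕ) (Q : AYY) (v : FreeMonoid ℕ) :
    (inr (wd [c]) * Q).coeff (v, FreeMonoid.ofList []) = 0 := by
  rw [inr_letter]
  apply MonoidAlgebra.coeff_single_mul_of_forall_mul_ne
  rintro ⟨p, q⟩ h
  have h1 := congrArg Prod.snd h
  have h2 := congrArg (fun z : FreeMonoid ℕ => (FreeMonoid.toList z).length) h1
  simp at h2

theorem co_inl_cons (c : ℕ) (Q : AYY) (d : ℕ) (v : List ℕ) (w : FreeMonoid ℕ) :
    (inl (wd [c]) * Q).coeff (FreeMonoid.ofList (d :: v), w) =
      if c = d then Q.coeff (FreeMonoid.ofList v, w) else 0 := by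
  rw [inl_letter]
  split_ifs with h
  · subst h
    rw [MonoidAlgebra.coeff_single_mul_eq_mul_coeff (m₂ := (FreeMonoid.ofList v, w)), one_mul]
    rintro ⟨p, q⟩ -
    constructor
    · intro h
      have h1 := congrArg Prod.fst h
      have h2 := congrArg (fun z : FreeMonoid ℕ => FreeMonoid.toList z) h1
      have h3 := congrArg Prod.snd h
      simp only [Prod.mk_mul_mk, FreeMonoid.toList_mul, FreeMonoid.toList_ofList] at h2
      simp only [Prod.mk_mul_mk, one_mul] at h3
      rw [List.singleton_append, List.cons.injEq] at h2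
      rw [h3]
      congr 1
      rw [← h2.2, FreeMonoid.ofList_toList]
    · intro h
      rw [h, Prod.mk_mul_mk, one_mul]
      rfl
  · apply MonoidAlgebra.coeff_single_mul_of_forall_mul_ne
    rintro ⟨p, q⟩ h'
    have h1 := congrArg Prod.fst h'
    have h2 := congrArg (fun z : FreeMonoid ℕ => FreeMonoid.toList z) h1
    simp only [Prod.mk_mul_mk, FreeMonoid.toList_mul, FreeMonoid.toList_ofList] at h2
    rw [List.singleton_append, List.cons.injEq] at h2
    exact h h2.1

theorem co_inr_cons (c : ℕ) (Q : AYY) (d : ℕ) (w : List ℕ) (v : FreeMonoid ℕ) :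
    (inr (wd [c]) * Q).coeff (v, FreeMonoid.ofList (d :: w)) =
      if c = d then Q.coeff (v, FreeMonoid.ofList w) else 0 := by
  rw [inr_letter]
  split_ifs with h
  · subst h
    rw [MonoidAlgebra.coeff_single_mul_eq_mul_coeff (m₂ := (v, FreeMonoid.ofList w)), one_mul]
    rintro ⟨p, q⟩ -
    constructor
    · intro h
      have h1 := congrArg Prod.snd h
      have h2 := congrArg (fun z : FreeMonoid ℕ => FreeMonoid.toList z) h1
      have h3 := congrArg Prod.fst h
      simp only [Prod.mk_mul_mk, FreeMonoid.toList_mul, FreeMonoid.toList_ofList] at h2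
      simp only [Prod.mk_mul_mk, one_mul] at h3
      rw [List.singleton_append, List.cons.injEq] at h2
      rw [h3]
      congr 1
      rw [← h2.2, FreeMonoid.ofList_toList]
    · intro h
      rw [h, Prod.mk_mul_mk, one_mul]
      rfl
  · apply MonoidAlgebra.coeff_single_mul_of_forall_mul_ne
    rintro ⟨p, q⟩ h'
    have h1 := congrArg Prod.snd h'
    have h2 := congrArg (fun z : FreeMonoid ℕ => FreeMonoid.toList z) h1
    simp only [Prod.mk_mul_mk, FreeMonoid.toList_mul, FreeMonoid.toList_ofList] at h2
    rw [List.singleton_append, List.cons.injEq] at h2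
    exact h h2.1

theorem sh_wd (u : List ℕ) : ∀ v w : List ℕ,
    (shΔ (wd u)).coeff (FreeMonoid.ofList v, FreeMonoid.ofList w) =
      ((shl v w).map (fun t => if u = t then (1 : ℚ) else 0)).sum := by
  classical
  induction u with
  | nil =>
    intro v w
    have h0 : (wd ([] : List ℕ) : AY) = 1 := by
      unfold wd
      exact map_one _
    rw [h0, map_one, MonoidAlgebra.one_def, MonoidAlgebra.coeff_single, Finsupp.single_apply]
    rcases v with _ | ⟨c, v⟩
    · rw [shl_nil]
      rcases w with _ | ⟨b, w⟩
      · simp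
        rfl
      · have : ¬ ((1 : FreeMonoid ℕ × FreeMonoid ℕ) =
            (FreeMonoid.ofList [], FreeMonoid.ofList (b :: w))) := by
          intro h
          have h1 := congrArg Prod.snd h
          have h2 := congrArg (fun z : FreeMonoid ℕ => (FreeMonoid.toList z).length) h1
          simp at h2
        rw [if_neg this]
        simp
    · have : ¬ ((1 : FreeMonoid ℕ × FreeMonoid ℕ) =
            (FreeMonoid.ofList (c :: v), FreeMonoid.ofList w)) := by
        intro h
        have h1 := congrArg Prod.fst h
        have h2 := congrArg (fun z : FreeMonoid ℕ => (FreeMonoid.toList z).length) h1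
        simp at h2
      rw [if_neg this]
      rcases w with _ | ⟨b, w⟩
      · rw [shl_cons_nil]
        simp
      · rw [shl_cons_cons]
        simp [Function.comp_def]
  | cons c u ih =>
    intro v w
    have h0 : (wd (c :: u) : AY) = wd [c] * wd u := by
      unfold wd
      rw [← map_mul]
      rfl
    have h1 : shΔ (wd [c]) = inl (wd [c]) + inr (wd [c]) := by
      have : (wd [c] : AY) = MonoidAlgebra.of ℚ (FreeMonoid ℕ) (FreeMonoid.of c) := rfl
      rw [this]
      unfold shΔ
      rw [MonoidAlgebra.lift_of, FreeMonoid.lift_eval_of]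
      rfl
    rw [h0, map_mul, h1, add_mul, MonoidAlgebra.coeff_add, Finsupp.add_apply]
    rcases v with _ | ⟨a, v⟩
    · rw [co_inl_nil, shl_nil, zero_add]
      rcases w with _ | ⟨b, w⟩
      · rw [co_inr_nil]
        simp
      · rw [co_inr_cons, ih, shl_nil]
        by_cases h : c = b
        · subst h
          simp
        · simp [h]
    · rcases w with _ | ⟨b, w⟩
      · rw [co_inr_nil, shl_cons_nil, add_zero, co_inl_cons, ih]
        have hv : shl v [] = [v] := by
          rcases v with _ | ⟨x, v⟩
          · rw [shl_nil]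
          · rw [shl_cons_nil]
        rw [hv]
        by_cases h : c = a
        · subst h
          simp
        · simp [h]
      · rw [co_inr_cons, co_inl_cons, ih, ih, shl_cons_cons, List.map_append, List.sum_append,
          List.map_map, List.map_map]
        congr 1
        · by_cases h : c = a
          · subst h
            simp [Function.comp_def]
          · simp [h, Function.comp_def]
        · by_cases h : c = b
          · subst h
            simp [Function.comp_def]
          · simp [h, Function.comp_def]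

theorem sh_co (F : AY) (v w : List ℕ) :
    (shΔ F).coeff (FreeMonoid.ofList v, FreeMonoid.ofList w) = ((shl v w).map (co F)).sum := by
  classical
  induction F using MonoidAlgebra.induction_on with
  | of m =>
    have h1 : (MonoidAlgebra.of ℚ (FreeMonoid ℕ) m : AY) = wd (FreeMonoid.toList m) := by
      unfold wd
      rw [FreeMonoid.ofList_toList]
    rw [h1, sh_wd]
    congr 1
    refine List.map_congr_left fun t _ => ?_
    unfold co wd
    rw [MonoidAlgebra.of_apply, MonoidAlgebra.coeff_single, Finsupp.single_apply]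
    by_cases h : FreeMonoid.toList m = t
    · rw [if_pos h, if_pos (by rw [h])]
    · rw [if_neg h, if_neg (fun h' => h (FreeMonoid.ofList.injective h'))]
  | add x y hx hy =>
    rw [map_add, MonoidAlgebra.coeff_add, Finsupp.add_apply, hx, hy, ← List.sum_map_add]
    congr 1
  | smul r x hx =>
    rw [map_smul, MonoidAlgebra.coeff_smul, Finsupp.smul_apply, hx, smul_eq_mul, ← List.sum_map_mul_left]
    congr 1

theorem inl_of (m : FreeMonoid ℕ) :
    inl (MonoidAlgebra.of ℚ (FreeMonoid ℕ) m) =
      MonoidAlgebra.single ((m, 1) : FreeMonoid ℕ × FreeMonoid ℕ) (1 : ℚ) := by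
  unfold inl
  simp [MonoidAlgebra.mapDomainAlgHom, MonoidAlgebra.of, MonoidAlgebra.mapDomain_single]

theorem inr_of (m : FreeMonoid ℕ) :
    inr (MonoidAlgebra.of ℚ (FreeMonoid ℕ) m) =
      MonoidAlgebra.single ((1, m) : FreeMonoid ℕ × FreeMonoid ℕ) (1 : ℚ) := by
  unfold inr
  simp [MonoidAlgebra.mapDomainAlgHom, MonoidAlgebra.of, MonoidAlgebra.mapDomain_single]

theorem co_inl_zero (F : AY) (v : FreeMonoid ℕ) (b : ℕ) (u : List ℕ) :
    (inl F).coeff (v, FreeMonoid.ofList (b :: u)) = 0 := by
  classical
  induction F using MonoidAlgebra.induction_on with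
  | of m =>
    rw [inl_of, MonoidAlgebra.coeff_single, Finsupp.single_apply, if_neg]
    intro h
    have h1 := congrArg Prod.snd h
    have h2 := congrArg (fun z : FreeMonoid ℕ => (FreeMonoid.toList z).length) h1
    simp at h2
  | add x y hx hy => rw [map_add, MonoidAlgebra.coeff_add, Finsupp.add_apply, hx, hy, add_zero]
  | smul r x hx => rw [map_smul, MonoidAlgebra.coeff_smul, Finsupp.smul_apply, hx, smul_zero]

theorem co_inr_zero (F : AY) (v : FreeMonoid ℕ) (b : ℕ) (u : List ℕ) :
    (inr F).coeff (FreeMonoid.ofList (b :: u), v) = 0 := by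
  classical
  induction F using MonoidAlgebra.induction_on with
  | of m =>
    rw [inr_of, MonoidAlgebra.coeff_single, Finsupp.single_apply, if_neg]
    intro h
    have h1 := congrArg Prod.fst h
    have h2 := congrArg (fun z : FreeMonoid ℕ => (FreeMonoid.toList z).length) h1
    simp at h2
  | add x y hx hy => rw [map_add, MonoidAlgebra.coeff_add, Finsupp.add_apply, hx, hy, add_zero]
  | smul r x hx => rw [map_smul, MonoidAlgebra.coeff_smul, Finsupp.smul_apply, hx, smul_zero]

theorem sumShuf (F : AY) (b : ℕ) : ∀ (v p u : List ℕ),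
    (∀ v1 v2, v = v1 ++ v2 → v2 ≠ [] → ∀ t, co F (p ++ v1 ++ b :: t) = 0) →
    ((shl v (b :: u)).map (fun t => co F (p ++ t))).sum = co F (p ++ v ++ b :: u) := by
  intro v
  induction v with
  | nil =>
    intro p u _
    rw [shl_nil]
    simp
  | cons c v ih =>
    intro p u h
    rw [shl_cons_cons, List.map_append, List.sum_append, List.map_map, List.map_map]
    have h1 : ((shl (c :: v) u).map ((fun t => co F (p ++ t)) ∘ fun t => b :: t)).sum = 0 := by
      have : (shl (c :: v) u).map ((fun t => co F (p ++ t)) ∘ fun t => b :: t) =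
          (shl (c :: v) u).map (fun _ => (0 : ℚ)) := by
        refine List.map_congr_left fun t _ => ?_
        have := h [] (c :: v) rfl (by simp) t
        simpa using this
      rw [this]
      simp
    rw [h1, add_zero]
    have h2 := ih (p ++ [c]) u (by
      intro v1 v2 hv hne t
      have := h (c :: v1) v2 (by rw [hv]; rfl) hne t
      simpa using this)
    have h3 : ((fun t => co F (p ++ t)) ∘ fun t => c :: t) = fun t => co F (p ++ [c] ++ t) := by
      funext t
      simp
    rw [h3, h2]
    congr 1
    simp

theorem taskTwoA : TaskTwoA := by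
  classical
  intro F hF hex
  have key : ∃ n : ℕ, ∃ v : List ℕ, v.length = n ∧ (∀ a ∈ v, a < 2) ∧
      ∃ (b : ℕ) (u : List ℕ), 2 ≤ b ∧ co F (v ++ b :: u) ≠ 0 := by
    obtain ⟨v, hv, a, ha, h2⟩ := hex
    have hs : ∀ v : List ℕ, (∃ a ∈ v, 2 ≤ a) → ∃ v1 : List ℕ, (∀ a ∈ v1, a < 2) ∧
        ∃ (b : ℕ) (u : List ℕ), 2 ≤ b ∧ v = v1 ++ b :: u := by
      intro v
      induction v with
      | nil =>
        rintro ⟨a, ha, -⟩
        simp at ha
      | cons c v ih =>
        rintro ⟨a, ha, h2⟩
        by_cases hc : 2 ≤ c
        · exact ⟨[], by simp, c, v, hc, rfl⟩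
        · have : a ∈ v := by
            rcases List.mem_cons.1 ha with h | h
            · omega
            · exact h
          obtain ⟨v1, h3, b, u, h4, h5⟩ := ih ⟨a, this, h2⟩
          refine ⟨c :: v1, ?_, b, u, h4, by rw [h5]; rfl⟩
          intro a ha
          rcases List.mem_cons.1 ha with h | h
          · omega
          · exact h3 a h
    obtain ⟨v1, h3, b, u, h4, h5⟩ := hs v ⟨a, ha, h2⟩
    exact ⟨v1.length, v1, rfl, h3, b, u, h4, by rw [← h5]; exact hv⟩
  obtain ⟨v, hvn, hsmall, b, u, hb, hne⟩ := Nat.find_spec key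
  have hmin := fun m (hm : m < Nat.find key) => Nat.find_min key hm
  rcases v with _ | ⟨c, v⟩
  · exact ⟨b, u, hb, hne⟩
  · exfalso
    have h1 := congrArg (fun Q : AYY => Q.coeff (FreeMonoid.ofList (c :: v),
      FreeMonoid.ofList (b :: u))) hF
    simp only [MonoidAlgebra.coeff_add, Finsupp.add_apply] at h1
    rw [co_inl_zero, co_inr_zero, sh_co, add_zero] at h1
    have h2 := sumShuf F b (c :: v) [] u (by
      intro v1 v2 hv hne2 t
      by_contra hc
      have hl : v1.length < (c :: v).length := by
        rw [hv, List.length_append]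
        have : 0 < v2.length := List.length_pos_iff.2 hne2
        omega
      rw [hvn] at hl
      refine hmin v1.length hl ⟨v1, rfl, ?_, b, t, hb, by simpa using hc⟩
      intro a ha
      exact hsmall a (by rw [hv]; exact List.mem_append_left _ ha))
    have h3 : (fun t => co F ([] ++ t)) = co F := by
      funext t
      rfl
    rw [h3, h1] at h2
    exact hne (by simpa using h2.symm)

end H777DSH.H610
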